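import Pool.Agent.Helper27.UC.Goals

/-!
PROJECT UC, packet SEM (helper66): semicontinuity of linear independence.
-/

set_option autoImplicit false

namespace Pool.Agent.Helper66.UC.SEM

open Polynomial

theorem t : Pool.Agent.Helper27.UC.S_SEM := by
  intro K _ _ V _ _ n D c hc
  classical
  -- a left inverse
  have hinj : LinearMap.ker (Fintype.linearCombination K (fun i => c i 0)) = ⊥ := by
    exact LinearMap.ker_eq_bot.2 hc.fintypeLinearCombination_injective
  obtain ⟨g, hg⟩ := LinearMap.exists_leftInverse_of_injective _ hinj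
  have hgi : ∀ i k, g (c i 0) k = if i = k then 1 else 0 := by
    intro i k
    have h1 := congrArg (fun φ => φ (Pi.single i (1 : K))) hg
    simp only [LinearMap.comp_apply, LinearMap.id_apply] at h1
    rw [Fintype.linearCombination_apply_single, one_smul] at h1
    rw [h1, Pi.single_apply]
    simp only [eq_comm]
  -- the matrix of polynomials
  let M : Matrix (Fin n) (Fin n) K[X] := Matrix.of fun i k =>
    ∑ s ∈ Finset.range (D + 1), C (g (c i s) k) * X ^ s
  have hMe : ∀ (e : K), (evalRingHom e) M.det = (Matrix.of fun i k =>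
      ∑ s ∈ Finset.range (D + 1), g (c i s) k * e ^ s).det := by
    intro e
    rw [RingHom.map_det]
    congr 1
    ext i k
    simp [M, RingHom.mapMatrix_apply, Polynomial.eval_finsetSum]
  have h0 : M.det ≠ 0 := by
    intro h
    have h1 := hMe 0
    rw [h, map_zero] at h1
    have h2 : (Matrix.of fun i k =>
      ∑ s ∈ Finset.range (D + 1), g (c i s) k * (0 : K) ^ s) = (1 : Matrix (Fin n) (Fin n) K) := by
      ext i k
      rw [Matrix.of_apply, Finset.sum_eq_single 0]
      · rw [pow_zero, mul_one, hgi, Matrix.one_apply]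
      · intro b _ hb
        rw [zero_pow hb, mul_zero]
      · intro hb
        exact absurd (Finset.mem_range.2 (Nat.succ_pos D)) hb
    rw [h2, Matrix.det_one] at h1
    exact zero_ne_one h1
  have h1 : X * M.det ≠ 0 := mul_ne_zero X_ne_zero h0
  obtain ⟨e, he⟩ : ∃ e : K, (X * M.det).eval e ≠ 0 := by
    by_contra hcon
    push Not at hcon
    apply h1
    apply Polynomial.funext
    intro r
    rw [hcon r, eval_zero]
  rw [eval_mul, eval_X] at he
  refine ⟨e, left_ne_zero_of_mul he, ?_⟩
  have h2 : (Matrix.of fun i k =>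
      ∑ s ∈ Finset.range (D + 1), g (c i s) k * e ^ s).det ≠ 0 := by
    rw [← hMe e]
    exact right_ne_zero_of_mul he
  have h3 := Matrix.linearIndependent_rows_of_det_ne_zero h2
  refine LinearIndependent.of_comp g ?_
  have h4 : (g ∘ fun i => ∑ s ∈ Finset.range (D + 1), e ^ s • c i s) =
      fun i => (Matrix.of (fun i k =>
        ∑ s ∈ Finset.range (D + 1), g (c i s) k * e ^ s)) i := by
    funext i k
    simp [mul_comm]
  rw [h4]
  exact h3

end Pool.Agent.Helper66.UC.SEM
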